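import Mathlib
import Pool.Agent.GeoThick.Main

set_option autoImplicit false

namespace Pool.Agent.Results.MP_3b066f_co.AllFromFive

/-- `p` is a straight-line drawing of `G`: distinct points, and no vertex on a non-incident edge. -/
def IsStraightLineDrawing {V : Type} (G : SimpleGraph V) (p : V → EuclideanSpace ℝ (Fin 2)) : Prop :=
  Function.Injective p ∧
    ∀ w u v : V, G.Adj u v → w ≠ u → w ≠ v → p w ∉ segment ℝ (p u) (p v)

/-- The crossing angle of the segments `a b` and `c d`: the smaller of the two angles formed by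
their directions. -/
noncomputable def crossingAngle (a b c d : EuclideanSpace ℝ (Fin 2)) : ℝ :=
  min (InnerProductGeometry.angle (b - a) (d - c)) (Real.pi - InnerProductGeometry.angle (b - a) (d - c))

/-- For every `d ≥ 5` and every `ε > 0` there is a finite graph of maximum degree exactly `d` such that
every straight-line drawing of it has two vertex-disjoint edges which cross at an angle `< ε`. -/
theorem result (d : ℕ) (hd : 5 ≤ d) (ε : ℝ) (hε : 0 < ε) :
    ∃ (V : Type) (_ : Fintype V) (_ : DecidableEq V) (G : SimpleGraph V) (_ : DecidableRel G.Adj),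
      G.maxDegree = d ∧
      ∀ p : V → EuclideanSpace ℝ (Fin 2), IsStraightLineDrawing G p →
        ∃ u v x y : V, G.Adj u v ∧ G.Adj x y ∧ u ≠ x ∧ u ≠ y ∧ v ≠ x ∧ v ≠ y ∧
          (segment ℝ (p u) (p v) ∩ segment ℝ (p x) (p y)).Nonempty ∧
          crossingAngle (p u) (p v) (p x) (p y) < ε := by
  by_contra hcon
  apply GeoThick.no_crossing_angle_bound d hd
  refine ⟨ε, hε, ?_⟩
  intro V _ _ G _ hG
  by_contra hno
  apply hcon
  refine ⟨V, inferInstance, inferInstance, G, inferInstance, hG, ?_⟩
  rintro p ⟨hp, hoff⟩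
  by_contra hnone
  apply hno
  refine ⟨p, hp, hoff, ?_⟩
  intro u v x y huv hxy h1 h2 h3 h4 hne
  by_contra hbad
  apply hnone
  refine ⟨u, v, x, y, huv, hxy, h1, h2, h3, h4, hne, ?_⟩
  unfold crossingAngle
  rw [min_lt_iff]
  by_contra hge
  push Not at hge
  apply hbad
  exact ⟨hge.1, by linarith [hge.2]⟩

end Pool.Agent.Results.MP_3b066f_co.AllFromFive
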